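import Pool.Agent.H590.PL.Stm

/-!
# Planar case of MP_85210c_gt: IA, integrability for `A`
-/

set_option autoImplicit false

noncomputable section

open MeasureTheory Filter Topology Set
open scoped BigOperators ENNReal

namespace H788PLIA

open H590PL

/-! ### One dimension -/

theorem even_int {f : ℝ → ℝ} (h : IntegrableOn f (Ioi 0)) : Integrable (fun x : ℝ => f |x|) := by
  have hf : IntegrableOn (fun x : ℝ => f |x|) (Ioi 0) := by
    refine h.congr_fun (fun x hx => ?_) measurableSet_Ioi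
    rw [abs_of_pos (mem_Ioi.1 hx)]
  have int_Iic : IntegrableOn (fun x ↦ f |x|) (Iic 0) := by
    rw [← Measure.map_neg_eq_self (volume : Measure ℝ)]
    let m : MeasurableEmbedding fun x : ℝ => -x := (Homeomorph.neg ℝ).measurableEmbedding
    rw [m.integrableOn_map_iff]
    simp_rw [Function.comp_def, abs_neg, neg_preimage, neg_Iic, neg_zero]
    exact Iff.mpr integrableOn_Ici_iff_integrableOn_Ioi hf
  have := int_Iic.union hf
  rwa [Iic_union_Ioi, integrableOn_univ] at this

/-- the weight -/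
def h1 (p : ℝ) (s : ℝ) : ℝ := |s| ^ (p - 2) * Real.exp (-(1 / 2 * |s| ^ p))

theorem h1_nonneg (p s : ℝ) : 0 ≤ h1 p s :=
  mul_nonneg (Real.rpow_nonneg (abs_nonneg s) _) (Real.exp_pos _).le

theorem h1_int {p : ℝ} (hp : 1 < p) : Integrable (h1 p) := by
  have h := integrableOn_rpow_mul_exp_neg_mul_rpow (p := p) (s := p - 2) (b := 1 / 2)
    (by linarith) (by linarith) (by norm_num)
  have h2 := even_int h
  refine h2.congr (Filter.Eventually.of_forall fun s => ?_)
  show |s| ^ (p - 2) * Real.exp (-(1 / 2) * |s| ^ p) = h1 p s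
  rw [h1, neg_mul]

/-- the bound of the logarithm by powers -/
theorem log_bd {e x : ℝ} (he : 0 < e) (hx : 0 < x) : |Real.log x| ≤ (x ^ e + x ^ (-e)) / e := by
  have h1 := Real.log_le_rpow_div hx.le he
  have h2 := Real.log_le_rpow_div (inv_pos.2 hx).le he
  rw [Real.log_inv, Real.inv_rpow hx.le, ← Real.rpow_neg hx.le] at h2
  have h3 : 0 ≤ x ^ e / e := by positivity
  have h4 : 0 ≤ x ^ (-e) / e := by positivity
  rw [add_div, abs_le]
  constructor <;> linarith

theorem h1log_int {p : ℝ} (hp : 1 < p) :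
    Integrable (fun s : ℝ => h1 p s * Real.log (|s| ^ p)) := by
  obtain ⟨e, he, he1⟩ : ∃ e : ℝ, 0 < e ∧ e < p - 1 := ⟨(p - 1) / 2, by linarith, by linarith⟩
  have a1 := even_int (integrableOn_rpow_mul_exp_neg_mul_rpow (p := p) (s := p - 2 + e)
    (b := 1 / 2) (by linarith) (by linarith) (by norm_num))
  have a2 := even_int (integrableOn_rpow_mul_exp_neg_mul_rpow (p := p) (s := p - 2 - e)
    (b := 1 / 2) (by linarith) (by linarith) (by norm_num))
  have hm : AEStronglyMeasurable (fun s : ℝ => h1 p s * Real.log (|s| ^ p)) := by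
    have : Measurable (fun s : ℝ => h1 p s * Real.log (|s| ^ p)) := by
      unfold h1
      fun_prop
    exact this.aestronglyMeasurable
  refine ((a1.add a2).const_mul (p / e)).mono' hm ?_
  have h0 : ∀ᵐ s : ℝ, s ≠ 0 := by
    rw [ae_iff]
    simp
  filter_upwards [h0] with s hs
  have hs0 : 0 < |s| := abs_pos.2 hs
  have hl := log_bd he hs0
  rw [Real.norm_eq_abs, abs_mul, abs_of_nonneg (h1_nonneg p s), Real.log_rpow hs0, abs_mul,
    abs_of_pos (by linarith : 0 < p)]
  have e1 : |s| ^ (p - 2 + e) = |s| ^ (p - 2) * |s| ^ e := Real.rpow_add hs0 _ _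
  have e2 : |s| ^ (p - 2 - e) = |s| ^ (p - 2) * |s| ^ (-e) := by
    rw [sub_eq_add_neg (p - 2) e]
    exact Real.rpow_add hs0 _ _
  show h1 p s * (p * |Real.log (|s|)|) ≤ p / e * (|s| ^ (p - 2 + e) * Real.exp (-(1 / 2) * |s| ^ p)
    + |s| ^ (p - 2 - e) * Real.exp (-(1 / 2) * |s| ^ p))
  rw [e1, e2]
  have hE : Real.exp (-(1 / 2) * |s| ^ p) = Real.exp (-(1 / 2 * |s| ^ p)) := by rw [neg_mul]
  rw [hE]
  calc h1 p s * (p * |Real.log (|s|)|) ≤ h1 p s * (p * ((|s| ^ e + |s| ^ (-e)) / e)) := by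
        refine mul_le_mul_of_nonneg_left ?_ (h1_nonneg p s)
        exact mul_le_mul_of_nonneg_left hl (by linarith)
    _ = _ := by
        unfold h1
        ring

/-! ### The plane -/

/-- the linear change of variables -/
def chg (v w : P2) (h : dt v w ≠ 0) : P2 ≃ₗ[ℝ] P2 where
  toFun x := (ip v x, ip w x)
  map_add' x y := by
    simp only [ip, Prod.fst_add, Prod.snd_add, Prod.mk_add_mk]
    ext <;> simp <;> ring
  map_smul' c x := by
    simp only [ip, Prod.smul_fst, Prod.smul_snd, smul_eq_mul, RingHom.id_apply, Prod.smul_mk]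
    ext <;> simp <;> ring
  invFun y := ((w.2 * y.1 - v.2 * y.2) / dt v w, (-w.1 * y.1 + v.1 * y.2) / dt v w)
  left_inv x := by
    ext
    · show (w.2 * ip v x - v.2 * ip w x) / dt v w = x.1
      rw [div_eq_iff h]
      unfold ip dt
      ring
    · show (-w.1 * ip v x + v.1 * ip w x) / dt v w = x.2
      rw [div_eq_iff h]
      unfold ip dt
      ring
  right_inv y := by
    ext
    · show v.1 * ((w.2 * y.1 - v.2 * y.2) / dt v w) + v.2 * ((-w.1 * y.1 + v.1 * y.2) / dt v w) = y.1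
      rw [mul_div_assoc', mul_div_assoc', ← add_div, div_eq_iff h]
      unfold dt
      ring
    · show w.1 * ((w.2 * y.1 - v.2 * y.2) / dt v w) + w.2 * ((-w.1 * y.1 + v.1 * y.2) / dt v w) = y.2
      rw [mul_div_assoc', mul_div_assoc', ← add_div, div_eq_iff h]
      unfold dt
      ring

theorem comp_int {v w : P2} (h : dt v w ≠ 0) {g : P2 → ℝ} (hg : Integrable g) :
    Integrable (fun x => g (ip v x, ip w x)) := by
  have hdet : LinearMap.det (chg v w h : P2 →ₗ[ℝ] P2) ≠ 0 :=
    (LinearEquiv.isUnit_det' (chg v w h)).ne_zero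
  have hmap := Measure.map_linearMap_addHaar_eq_smul_addHaar (volume : Measure P2) hdet
  have hme : MeasurableEmbedding (chg v w h) :=
    (chg v w h).toContinuousLinearEquiv.toHomeomorph.measurableEmbedding
  have h1 : Integrable g (Measure.map (chg v w h) (volume : Measure P2)) := by
    have h2 : Measure.map (chg v w h) (volume : Measure P2) =
      ENNReal.ofReal |(LinearMap.det (chg v w h : P2 →ₗ[ℝ] P2))⁻¹| • (volume : Measure P2) := hmap
    rw [h2]
    exact hg.smul_measure ENNReal.ofReal_ne_top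
  exact (hme.integrable_map_iff).1 h1

theorem prod_int {v w : P2} (h : dt v w ≠ 0) {f g : ℝ → ℝ} (hf : Integrable f)
    (hg : Integrable g) : Integrable (fun x : P2 => f (ip v x) * g (ip w x)) :=
  comp_int h (g := fun z : P2 => f z.1 * g z.2) (hf.mul_prod hg)

theorem ip_meas (v : P2) : Measurable (ip v) := by
  unfold ip
  fun_prop

set_option linter.unusedSectionVars false

section
variable {κ : Type} [Fintype κ]

theorem Ph_one (p : ℝ) (v : κ → P2) (x : P2) : Ph p v one x = ∑ k, |ip (v k) x| ^ p := by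
  unfold Ph one
  simp

theorem tau_nonneg (p : ℝ) (v : κ → P2) (k : κ) (x : P2) : 0 ≤ tau p v k x :=
  Real.rpow_nonneg (abs_nonneg _) _

theorem Ph_ge (p : ℝ) (v : κ → P2) (x : P2) (k : κ) : tau p v k x ≤ Ph p v one x := by
  rw [Ph_one]
  exact Finset.single_le_sum (f := fun k => |ip (v k) x| ^ p)
    (fun i _ => Real.rpow_nonneg (abs_nonneg _) _) (Finset.mem_univ k)

theorem Ph_ge2 (p : ℝ) (v : κ → P2) (x : P2) {i j : κ} (h : i ≠ j) :
    tau p v i x + tau p v j x ≤ Ph p v one x := by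
  classical
  rw [Ph_one]
  have h1 : ∑ k ∈ ({i, j} : Finset κ), |ip (v k) x| ^ p = tau p v i x + tau p v j x := by
    rw [Finset.sum_pair h]
    rfl
  rw [← h1]
  exact Finset.sum_le_sum_of_subset_of_nonneg (Finset.subset_univ _)
    (fun i _ _ => Real.rpow_nonneg (abs_nonneg _) _)

theorem Ph_meas (p : ℝ) (v : κ → P2) : Measurable (Ph p v one) := by
  unfold Ph
  refine Finset.measurable_sum _ fun k _ => ?_
  have := ip_meas (v k)
  fun_prop

theorem tau_meas (p : ℝ) (v : κ → P2) (k : κ) : Measurable (tau p v k) := by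
  unfold tau
  have := ip_meas (v k)
  fun_prop

theorem ne_of_dt {v : κ → P2} {i j : κ} (h : dt (v i) (v j) ≠ 0) : i ≠ j := by
  rintro rfl
  exact h (by unfold dt; ring)

/-- the basic function of a pair -/
def bb (p : ℝ) (v : κ → P2) (i j : κ) (x : P2) : ℝ :=
  Real.exp (-(Ph p v one x)) * (|ip (v i) x| ^ (p - 2) * |ip (v j) x| ^ (p - 2))

theorem bb_meas (p : ℝ) (v : κ → P2) (i j : κ) : Measurable (bb p v i j) := by
  unfold bb
  have h1 := ip_meas (v i)
  have h2 := ip_meas (v j)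
  have h3 := Ph_meas p v
  fun_prop

theorem bb_nonneg (p : ℝ) (v : κ → P2) (i j : κ) (x : P2) : 0 ≤ bb p v i j x :=
  mul_nonneg (Real.exp_pos _).le (mul_nonneg (Real.rpow_nonneg (abs_nonneg _) _)
    (Real.rpow_nonneg (abs_nonneg _) _))

/-- pairs with a weight which is at most `C exp (Φ / 2)` -/
theorem core {p : ℝ} (hp : 1 < p) {v : κ → P2} {i j : κ} (h : dt (v i) (v j) ≠ 0) {W : P2 → ℝ}
    (hW : Measurable W) {C : ℝ} (hC : ∀ x, |W x| ≤ C * Real.exp (Ph p v one x / 2)) :
    Integrable (fun x => bb p v i j x * W x) := by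
  have h0 := prod_int h (h1_int hp) (h1_int hp)
  have hm : AEStronglyMeasurable (fun x => bb p v i j x * W x) :=
    ((bb_meas p v i j).mul hW).aestronglyMeasurable
  refine (h0.const_mul C).mono' hm (Filter.Eventually.of_forall fun x => ?_)
  have hC0 : 0 ≤ C := by
    have h3 := (abs_nonneg _).trans (hC 0)
    exact nonneg_of_mul_nonneg_left h3 (Real.exp_pos _)
  rw [Real.norm_eq_abs, abs_mul, abs_of_nonneg (bb_nonneg p v i j x)]
  have h2 := Ph_ge2 p v x (ne_of_dt h)
  have h4 : Real.exp (-(Ph p v one x)) * Real.exp (Ph p v one x / 2) ≤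
      Real.exp (-(1 / 2 * |ip (v i) x| ^ p)) * Real.exp (-(1 / 2 * |ip (v j) x| ^ p)) := by
    rw [← Real.exp_add, ← Real.exp_add]
    refine Real.exp_le_exp.2 ?_
    unfold tau at h2
    linarith
  have h5 : 0 ≤ |ip (v i) x| ^ (p - 2) * |ip (v j) x| ^ (p - 2) :=
    mul_nonneg (Real.rpow_nonneg (abs_nonneg _) _) (Real.rpow_nonneg (abs_nonneg _) _)
  calc bb p v i j x * |W x| ≤ bb p v i j x * (C * Real.exp (Ph p v one x / 2)) :=
        mul_le_mul_of_nonneg_left (hC x) (bb_nonneg p v i j x)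
    _ = C * ((|ip (v i) x| ^ (p - 2) * |ip (v j) x| ^ (p - 2)) *
          (Real.exp (-(Ph p v one x)) * Real.exp (Ph p v one x / 2))) := by
        unfold bb
        ring
    _ ≤ C * ((|ip (v i) x| ^ (p - 2) * |ip (v j) x| ^ (p - 2)) *
          (Real.exp (-(1 / 2 * |ip (v i) x| ^ p)) * Real.exp (-(1 / 2 * |ip (v j) x| ^ p)))) := by
        exact mul_le_mul_of_nonneg_left (mul_le_mul_of_nonneg_left h4 h5) hC0
    _ = C * (h1 p (ip (v i) x) * h1 p (ip (v j) x)) := by
        unfold h1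
        ring

/-- pairs with the logarithm -/
theorem core_log {p : ℝ} (hp : 1 < p) {v : κ → P2} {i j : κ} (h : dt (v i) (v j) ≠ 0) :
    Integrable (fun x => bb p v i j x * Real.log (tau p v i x)) := by
  have h0 := prod_int h (h1log_int hp) (h1_int hp)
  have hm : AEStronglyMeasurable (fun x => bb p v i j x * Real.log (tau p v i x)) :=
    ((bb_meas p v i j).mul (Real.measurable_log.comp (tau_meas p v i))).aestronglyMeasurable
  refine (h0.norm).mono' hm (Filter.Eventually.of_forall fun x => ?_)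
  rw [Real.norm_eq_abs, Real.norm_eq_abs, abs_mul, abs_of_nonneg (bb_nonneg p v i j x), abs_mul,
    abs_mul, abs_of_nonneg (h1_nonneg p _), abs_of_nonneg (h1_nonneg p _)]
  have h2 := Ph_ge2 p v x (ne_of_dt h)
  have t1 := tau_nonneg p v i x
  have t2 := tau_nonneg p v j x
  have h4 : Real.exp (-(Ph p v one x)) ≤
      Real.exp (-(1 / 2 * |ip (v i) x| ^ p)) * Real.exp (-(1 / 2 * |ip (v j) x| ^ p)) := by
    rw [← Real.exp_add]
    refine Real.exp_le_exp.2 ?_
    unfold tau at h2 t1 t2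
    linarith
  have h5 : 0 ≤ |ip (v i) x| ^ (p - 2) * |ip (v j) x| ^ (p - 2) :=
    mul_nonneg (Real.rpow_nonneg (abs_nonneg _) _) (Real.rpow_nonneg (abs_nonneg _) _)
  have h6 : bb p v i j x ≤ h1 p (ip (v i) x) * h1 p (ip (v j) x) := by
    calc bb p v i j x ≤ (Real.exp (-(1 / 2 * |ip (v i) x| ^ p)) *
          Real.exp (-(1 / 2 * |ip (v j) x| ^ p))) *
          (|ip (v i) x| ^ (p - 2) * |ip (v j) x| ^ (p - 2)) :=
          mul_le_mul_of_nonneg_right h4 h5
      _ = _ := by
        unfold h1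
        ring
  calc bb p v i j x * |Real.log (tau p v i x)| ≤
      (h1 p (ip (v i) x) * h1 p (ip (v j) x)) * |Real.log (tau p v i x)| :=
        mul_le_mul_of_nonneg_right h6 (abs_nonneg _)
    _ = _ := by
        unfold tau
        ring

/-! ### The weights -/

theorem exp_half_ge {t : ℝ} (ht : 0 ≤ t) : 1 ≤ Real.exp (t / 2) ∧ t ≤ 2 * Real.exp (t / 2) ∧
    t ^ 2 ≤ 8 * Real.exp (t / 2) := by
  have h1 := Real.add_one_le_exp (t / 2)
  have h2 := Real.quadratic_le_exp_of_nonneg (x := t / 2) (by linarith)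
  refine ⟨by linarith, by linarith, by nlinarith⟩

theorem tlog_bd {t : ℝ} (ht : 0 ≤ t) : |t * Real.log t| ≤ 1 + t ^ 2 := by
  rcases eq_or_lt_of_le ht with h0 | h0
  · rw [← h0]
    simp
  · rcases le_or_gt t 1 with h1 | h1
    · have h2 := Real.abs_log_mul_self_lt t h0 h1
      rw [mul_comm]
      nlinarith [sq_nonneg t]
    · have h2 : 0 ≤ Real.log t := Real.log_nonneg h1.le
      have h3 : Real.log t ≤ t := (Real.log_le_sub_one_of_pos h0).trans (by linarith)
      rw [abs_of_nonneg (mul_nonneg ht h2)]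
      nlinarith

theorem W1 (p : ℝ) (v : κ → P2) (x : P2) : |(1 : ℝ)| ≤ 1 * Real.exp (Ph p v one x / 2) := by
  rw [abs_one, one_mul]
  have h0 : 0 ≤ Ph p v one x := by
    rw [Ph_one]
    exact Finset.sum_nonneg fun i _ => Real.rpow_nonneg (abs_nonneg _) _
  exact (exp_half_ge h0).1

theorem Wt (p : ℝ) (v : κ → P2) (k : κ) (x : P2) :
    |tau p v k x| ≤ 2 * Real.exp (Ph p v one x / 2) := by
  have h0 := tau_nonneg p v k x
  rw [abs_of_nonneg h0]
  refine (exp_half_ge h0).2.1.trans ?_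
  refine mul_le_mul_of_nonneg_left (Real.exp_le_exp.2 ?_) (by norm_num)
  have := Ph_ge p v x k
  linarith

theorem Wtl (p : ℝ) (v : κ → P2) (k : κ) (x : P2) :
    |tau p v k x * Real.log (tau p v k x)| ≤ 9 * Real.exp (Ph p v one x / 2) := by
  have h0 := tau_nonneg p v k x
  have h1 := tlog_bd h0
  obtain ⟨a1, -, a3⟩ := exp_half_ge h0
  have h2 : Real.exp (tau p v k x / 2) ≤ Real.exp (Ph p v one x / 2) := by
    refine Real.exp_le_exp.2 ?_
    have := Ph_ge p v x k
    linarith
  linarith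

theorem tl_meas (p : ℝ) (v : κ → P2) (k : κ) :
    Measurable (fun x => tau p v k x * Real.log (tau p v k x)) :=
  (tau_meas p v k).mul (Real.measurable_log.comp (tau_meas p v k))

/-! ### The sums -/

theorem pair_int {p : ℝ} (hp : 1 < p) {v : κ → P2} (i j : κ) {W : P2 → ℝ}
    (hW : Measurable W) {C : ℝ} (hC : ∀ x, |W x| ≤ C * Real.exp (Ph p v one x / 2)) :
    Integrable (fun x => dt (v i) (v j) ^ 2 * (bb p v i j x * W x)) := by
  by_cases h : dt (v i) (v j) = 0
  · rw [h]
    simp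
  · exact (core hp h hW hC).const_mul _

theorem DD_eq (p : ℝ) (v : κ → P2) (W : P2 → ℝ) (x : P2) :
    Real.exp (-(Ph p v one x)) * DD p v one x * W x =
      (p ^ 2 / 2) * ∑ i, ∑ j, dt (v i) (v j) ^ 2 * (bb p v i j x * W x) := by
  unfold DD one bb
  rw [Finset.mul_sum, Finset.mul_sum, Finset.sum_mul, Finset.mul_sum]
  refine Finset.sum_congr rfl fun i _ => ?_
  rw [Finset.mul_sum, Finset.mul_sum, Finset.sum_mul, Finset.mul_sum]
  refine Finset.sum_congr rfl fun j _ => ?_
  unfold one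
  ring

theorem DD_int {p : ℝ} (hp : 1 < p) {v : κ → P2} {W : P2 → ℝ}
    (hW : Measurable W) {C : ℝ} (hC : ∀ x, |W x| ≤ C * Real.exp (Ph p v one x / 2)) :
    Integrable (fun x => Real.exp (-(Ph p v one x)) * DD p v one x * W x) := by
  simp_rw [DD_eq]
  refine Integrable.const_mul ?_ _
  exact integrable_finsetSum _ fun i _ => integrable_finsetSum _ fun j _ => pair_int hp i j hW hC

theorem G1_eq (p : ℝ) (v : κ → P2) (k : κ) (W : P2 → ℝ) (x : P2) :
    G1 p v k x * W x = p ^ 2 * ∑ j, dt (v k) (v j) ^ 2 * (bb p v k j x * W x) := by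
  unfold G1 bb
  rw [Finset.mul_sum, Finset.sum_mul, Finset.mul_sum]
  refine Finset.sum_congr rfl fun j _ => ?_
  ring

theorem G1_int {p : ℝ} (hp : 1 < p) {v : κ → P2} (k : κ) {W : P2 → ℝ}
    (hW : Measurable W) {C : ℝ} (hC : ∀ x, |W x| ≤ C * Real.exp (Ph p v one x / 2)) :
    Integrable (fun x => G1 p v k x * W x) := by
  simp_rw [G1_eq]
  refine Integrable.const_mul ?_ _
  exact integrable_finsetSum _ fun j _ => pair_int hp k j hW hC

theorem G1_log {p : ℝ} (hp : 1 < p) {v : κ → P2} (k : κ) :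
    Integrable (fun x => G1 p v k x * Real.log (tau p v k x)) := by
  have h := fun x => G1_eq p v k (fun x => Real.log (tau p v k x)) x
  simp_rw [h]
  refine Integrable.const_mul ?_ _
  refine integrable_finsetSum _ fun j _ => ?_
  by_cases h : dt (v k) (v j) = 0
  · rw [h]
    simp
  · exact (core_log hp h).const_mul _

theorem DD_nonneg {p : ℝ} (v : κ → P2) (x : P2) : 0 ≤ DD p v one x := by
  unfold DD
  refine mul_nonneg (by norm_num) (Finset.sum_nonneg fun i _ => Finset.sum_nonneg fun j _ => ?_)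
  have h1 : 0 ≤ |ip (v i) x| ^ (p - 2) := Real.rpow_nonneg (abs_nonneg _) _
  have h2 : 0 ≤ |ip (v j) x| ^ (p - 2) := Real.rpow_nonneg (abs_nonneg _) _
  have h3 : dt (v i) (v j) ^ 2 * (p * one i * |ip (v i) x| ^ (p - 2)) *
    (p * one j * |ip (v j) x| ^ (p - 2)) = (dt (v i) (v j) * p) ^ 2 *
      (|ip (v i) x| ^ (p - 2) * |ip (v j) x| ^ (p - 2)) := by
    unfold one
    ring
  rw [h3]
  positivity

theorem DD_pos {p : ℝ} (hp : 1 < p) {v : κ → P2} {i j : κ} (h : dt (v i) (v j) ≠ 0) {x : P2}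
    (hi : ip (v i) x ≠ 0) (hj : ip (v j) x ≠ 0) : 0 < DD p v one x := by
  have key : ∀ i j : κ, 0 ≤ dt (v i) (v j) ^ 2 * (p * one i * |ip (v i) x| ^ (p - 2)) *
    (p * one j * |ip (v j) x| ^ (p - 2)) := by
    intro i j
    have h1 : 0 ≤ |ip (v i) x| ^ (p - 2) := Real.rpow_nonneg (abs_nonneg _) _
    have h2 : 0 ≤ |ip (v j) x| ^ (p - 2) := Real.rpow_nonneg (abs_nonneg _) _
    unfold one
    positivity
  unfold DD
  refine mul_pos (by norm_num) ?_
  refine Finset.sum_pos' (fun i _ => Finset.sum_nonneg fun j _ => key i j)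
    ⟨i, Finset.mem_univ _, ?_⟩
  refine Finset.sum_pos' (fun j _ => key i j) ⟨j, Finset.mem_univ _, ?_⟩
  have h1 : 0 < |ip (v i) x| ^ (p - 2) := Real.rpow_pos_of_pos (abs_pos.2 hi) _
  have h2 : 0 < |ip (v j) x| ^ (p - 2) := Real.rpow_pos_of_pos (abs_pos.2 hj) _
  unfold one
  positivity

theorem AA_pos {p : ℝ} (hp : 1 < p) {v : κ → P2} (hv : Spans v)
    (hint : Integrable (fun x => Real.exp (-(Ph p v one x)) * DD p v one x)) :
    0 < AA p v one := by
  obtain ⟨i, j, h⟩ := hv
  unfold AA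
  rw [integral_pos_iff_support_of_nonneg
    (fun x => mul_nonneg (Real.exp_pos _).le (DD_nonneg v x)) hint]
  have hc : ∀ w : P2, Continuous (ip w) := fun w => by
    unfold ip
    fun_prop
  have hO : IsOpen {x : P2 | ip (v i) x ≠ 0 ∧ ip (v j) x ≠ 0} :=
    (isOpen_ne_fun (hc _) continuous_const).inter (isOpen_ne_fun (hc _) continuous_const)
  have hne : {x : P2 | ip (v i) x ≠ 0 ∧ ip (v j) x ≠ 0}.Nonempty := by
    refine ⟨(chg (v i) (v j) h).symm (1, 1), ?_⟩
    have h1 : chg (v i) (v j) h ((chg (v i) (v j) h).symm (1, 1)) = (1, 1) :=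
      (chg (v i) (v j) h).apply_symm_apply _
    have h2 : ip (v i) ((chg (v i) (v j) h).symm (1, 1)) = 1 := congrArg Prod.fst h1
    have h3 : ip (v j) ((chg (v i) (v j) h).symm (1, 1)) = 1 := congrArg Prod.snd h1
    refine ⟨?_, ?_⟩
    · rw [h2]; exact one_ne_zero
    · rw [h3]; exact one_ne_zero
  refine lt_of_lt_of_le (hO.measure_pos volume hne) (measure_mono ?_)
  rintro x ⟨hi, hj⟩
  exact (mul_pos (Real.exp_pos _) (DD_pos hp h hi hj)).ne'

end

/-- integrability for `A` -/
theorem IA : S_IA := by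
  intro κ _ p hp _ v hv
  have h0 : Integrable (fun x => Real.exp (-(Ph p v one x)) * DD p v one x) := by
    have := DD_int hp (v := v) (W := fun _ => (1 : ℝ)) measurable_const (W1 p v)
    simpa using this
  refine ⟨h0, AA_pos hp hv h0, fun k => ⟨?_, ?_, ?_, ?_, ?_⟩⟩
  · exact DD_int hp (tau_meas p v k) (Wt p v k)
  · exact DD_int hp (tl_meas p v k) (Wtl p v k)
  · have := G1_int hp (v := v) k (W := fun _ => (1 : ℝ)) measurable_const (W1 p v)
    simpa using this
  · exact G1_int hp k (tau_meas p v k) (Wt p v k)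
  · exact G1_log hp k

end H788PLIA
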